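import Mathlib
import Pool.Agent.Helper13.P2.Defs
import Pool.Agent.Helper47.PR.Koszul

/-!
# The symmetrizers of two blocks
-/

open Finset Equiv

namespace Pool.Agent.Helper47.P2

open Pool.Agent.Helper47.PR

section ring

variable {𝕜 : Type*} [Field 𝕜] [CharZero 𝕜] {R : Type*} [Ring R] [Algebra 𝕜 R] {k : ℕ}

/-- the symmetric idempotent in the first `j` factors times the symmetric idempotent in the
other factors -/
noncomputable def ss (𝕜 : Type*) [Field 𝕜] {R : Type*} [Ring R] [Algebra 𝕜 R] {k : ℕ}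
    (ρ : Perm (Fin k) →ₙ* R) (j : ℕ) : R :=
  avg 𝕜 ρ (lowP k j) * avg 𝕜 ρ (highP k j)

variable (ρ : Perm (Fin k) →ₙ* R)

omit [CharZero 𝕜] in
lemma low_comm {i j : ℕ} (h : i ≤ j) : avg 𝕜 ρ (lowP k i) * avg 𝕜 ρ (highP k j) =
    avg 𝕜 ρ (highP k j) * avg 𝕜 ρ (lowP k i) := by
  refine avg_comm ρ ρ fun σ hσ τ hτ => ?_
  rw [← map_mul, low_high_comm (lowP_mono h hσ) hτ, map_mul]

lemma ss_idem (j : ℕ) : ss 𝕜 ρ j * ss 𝕜 ρ j = ss 𝕜 ρ j := by
  have h := low_comm (𝕜 := 𝕜) ρ (le_refl j)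
  calc ss 𝕜 ρ j * ss 𝕜 ρ j =
      avg 𝕜 ρ (lowP k j) * (avg 𝕜 ρ (highP k j) * avg 𝕜 ρ (lowP k j)) *
        avg 𝕜 ρ (highP k j) := by simp only [ss, mul_assoc]
    _ = (avg 𝕜 ρ (lowP k j) * avg 𝕜 ρ (lowP k j)) *
        (avg 𝕜 ρ (highP k j) * avg 𝕜 ρ (highP k j)) := by rw [← h]; simp only [mul_assoc]
    _ = ss 𝕜 ρ j := by rw [avg_mul_avg _ le_rfl, avg_mul_avg _ le_rfl]; rfl

/-- the symmetric idempotents of the first factors -/
lemma low_step {j : ℕ} (hj : j + 1 < k) :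
    ((j : 𝕜) + 2) • avg 𝕜 ρ (lowP k (j + 2)) = avg 𝕜 ρ (lowP k (j + 1)) +
      ((j : 𝕜) + 1) • (avg 𝕜 ρ (lowP k (j + 1)) *
        ρ (swap (⟨j, by omega⟩ : Fin k) ⟨j + 1, hj⟩) * avg 𝕜 ρ (lowP k (j + 1))) := by
  have h := avg_double (𝕜 := 𝕜) ρ (lowP_mono (k := k) (by omega : j + 1 ≤ j + 2)) _
    (low_double hj) _ _ (card_lowP (k := k) (j := j + 1) (by omega))
    (card_lowP (k := k) (j := j + 2) (by omega))
  rw [Nat.factorial_succ (j + 1)] at h
  have hf : ((j + 1).factorial : 𝕜) ≠ 0 := by exact_mod_cast (Nat.factorial_pos _).ne'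
  have h2 := congrArg (fun z => ((j + 1).factorial : 𝕜)⁻¹ • z) h
  simp only [smul_add, smul_smul, Nat.cast_mul] at h2
  have e1 : ((j + 1).factorial : 𝕜)⁻¹ * (((j + 1 + 1 : ℕ) : 𝕜) * ((j + 1).factorial : 𝕜)) =
      (j : 𝕜) + 2 := by
    rw [mul_comm, mul_assoc, mul_inv_cancel₀ hf, mul_one]
    push_cast
    ring
  have e2 : ((j + 1).factorial : 𝕜)⁻¹ * (((j + 1 + 1 : ℕ) : 𝕜) * ((j + 1).factorial : 𝕜) -
      ((j + 1).factorial : 𝕜)) = (j : 𝕜) + 1 := by
    rw [mul_sub, e1, inv_mul_cancel₀ hf]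
    ring
  rw [e1, e2, inv_mul_cancel₀ hf, one_smul] at h2
  exact h2

/-- `e_{j+1} e_j e_{j+1}` -/
lemma ss_down {j : ℕ} (hj : j + 1 < k) :
    ((k : 𝕜) - j) • (ss 𝕜 ρ (j + 1) * ss 𝕜 ρ j * ss 𝕜 ρ (j + 1)) =
      ss 𝕜 ρ (j + 1) + ((k : 𝕜) - j - 1) • (ss 𝕜 ρ (j + 1) *
        ρ (swap (⟨j, by omega⟩ : Fin k) ⟨j + 1, hj⟩) * ss 𝕜 ρ (j + 1)) := by
  have hc := low_comm (𝕜 := 𝕜) ρ (le_refl (j + 1))
  have haa := avg_mul_avg' (𝕜 := 𝕜) ρ (lowP_mono (k := k) (Nat.le_succ j))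
  have hss := avg_mul_avg (𝕜 := 𝕜) ρ (highP_mono (k := k) (Nat.le_succ j))
  have hst := PR.sym_step (𝕜 := 𝕜) ρ hj
  have ha2 := avg_mul_avg (𝕜 := 𝕜) ρ (le_refl (lowP k (j + 1)))
  unfold ss
  simp only [Nat.succ_eq_add_one] at haa hss
  set a := avg 𝕜 ρ (lowP k (j + 1))
  set s := avg 𝕜 ρ (highP k (j + 1))
  set a0 := avg 𝕜 ρ (lowP k j)
  set s0 := avg 𝕜 ρ (highP k j)
  set t := ρ (swap (⟨j, by omega⟩ : Fin k) ⟨j + 1, hj⟩)
  have h1 : a * s * (a0 * s0) * (a * s) = a * s0 * a := by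
    calc a * s * (a0 * s0) * (a * s) = s * a * (a0 * s0) * (s * a) := by rw [hc]
      _ = s * (a * a0) * s0 * (s * a) := by simp only [mul_assoc]
      _ = (s * a) * s0 * (s * a) := by rw [haa]
      _ = (a * s) * s0 * (a * s) := by rw [hc]
      _ = a * (s * s0) * (s * a) := by rw [← hc]; simp only [mul_assoc]
      _ = a * (s0 * s) * a := by rw [hss]; simp only [mul_assoc]
      _ = a * s0 * a := by
        rw [avg_mul_avg' (𝕜 := 𝕜) ρ (highP_mono (k := k) (Nat.le_succ j))]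
  rw [h1, ← smul_mul_assoc, ← mul_smul_comm, hst, mul_add, add_mul, mul_smul_comm,
    smul_mul_assoc]
  congr 1
  · rw [mul_assoc, ← hc, ← mul_assoc, ha2]
  · congr 1
    calc a * (s * t * s) * a = (a * s) * t * (s * a) := by simp only [mul_assoc]
      _ = (a * s) * t * (a * s) := by rw [hc]

/-- `e_{j+1} e_{j+2} e_{j+1}` -/
lemma ss_up {j : ℕ} (hj : j + 1 < k) :
    ((j : 𝕜) + 2) • (ss 𝕜 ρ (j + 1) * ss 𝕜 ρ (j + 2) * ss 𝕜 ρ (j + 1)) =
      ss 𝕜 ρ (j + 1) + ((j : 𝕜) + 1) • (ss 𝕜 ρ (j + 1) *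
        ρ (swap (⟨j, by omega⟩ : Fin k) ⟨j + 1, hj⟩) * ss 𝕜 ρ (j + 1)) := by
  have hc := low_comm (𝕜 := 𝕜) ρ (le_refl (j + 1))
  have hc2 := low_comm (𝕜 := 𝕜) ρ (show j + 1 ≤ j + 2 by omega)
  have haa := avg_mul_avg (𝕜 := 𝕜) ρ (lowP_mono (k := k) (show j + 1 ≤ j + 2 by omega))
  have haa' := avg_mul_avg' (𝕜 := 𝕜) ρ (lowP_mono (k := k) (show j + 1 ≤ j + 2 by omega))
  have hss := avg_mul_avg (𝕜 := 𝕜) ρ (highP_mono (k := k) (show j + 1 ≤ j + 2 by omega))
  have hst := low_step (𝕜 := 𝕜) ρ hj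
  have hs2 := avg_mul_avg (𝕜 := 𝕜) ρ (le_refl (highP k (j + 1)))
  unfold ss
  set a := avg 𝕜 ρ (lowP k (j + 1))
  set s := avg 𝕜 ρ (highP k (j + 1))
  set a2 := avg 𝕜 ρ (lowP k (j + 2))
  set s2 := avg 𝕜 ρ (highP k (j + 2))
  set t := ρ (swap (⟨j, by omega⟩ : Fin k) ⟨j + 1, hj⟩)
  have h1 : a * s * (a2 * s2) * (a * s) = s * a2 * s := by
    calc a * s * (a2 * s2) * (a * s) = s * a * (a2 * s2) * (a * s) := by rw [hc]
      _ = s * (a * a2) * (s2 * a) * s := by simp only [mul_assoc]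
      _ = s * a2 * (a * s2) * s := by rw [haa, hc2]
      _ = s * (a2 * a) * (s2 * s) := by simp only [mul_assoc]
      _ = s * a2 * s := by rw [haa', hss]
  rw [h1, ← smul_mul_assoc, ← mul_smul_comm, hst, mul_add, add_mul, mul_smul_comm,
    smul_mul_assoc]
  congr 1
  · rw [← hc, mul_assoc, hs2]
  · congr 1
    calc s * (a * t * a) * s = (s * a) * t * (a * s) := by simp only [mul_assoc]
      _ = (a * s) * t * (a * s) := by rw [hc]

/-- the commutator relation -/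
lemma ss_rel {j : ℕ} (hj : j + 1 < k) :
    (((j : 𝕜) + 1) * ((k : 𝕜) - j)) • (ss 𝕜 ρ (j + 1) * ss 𝕜 ρ j * ss 𝕜 ρ (j + 1)) =
      (((k : 𝕜) - j - 1) * ((j : 𝕜) + 2)) • (ss 𝕜 ρ (j + 1) * ss 𝕜 ρ (j + 2) * ss 𝕜 ρ (j + 1)) +
        (2 * ((j : 𝕜) + 1) - k) • ss 𝕜 ρ (j + 1) := by
  rw [mul_smul, mul_smul, ss_down ρ hj, ss_up ρ hj]
  module

/-- the symmetric idempotent of all factors -/
lemma ss_top (j : ℕ) : ss 𝕜 ρ k * ss 𝕜 ρ j = ss 𝕜 ρ k := by
  have h1 : ∀ H : Subgroup (Perm (Fin k)), H ≤ lowP k k := fun H σ _ i hi =>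
    absurd i.2 (not_lt.2 hi)
  have h2 : ss 𝕜 ρ k = avg 𝕜 ρ (lowP k k) := avg_mul_avg' ρ (h1 _)
  rw [h2, ss, ← mul_assoc, avg_mul_avg' ρ (h1 _), avg_mul_avg' ρ (h1 _)]

end ring

section inj

variable {Ω U : Type*} [Field Ω] [CharZero Ω] [AddCommGroup U] [Module Ω U] {n : ℕ}

lemma inj_aux (e : ℕ → Module.End Ω U) (hid : ∀ j, e j * e j = e j)
    (htop : ∀ j, e n * e j = e n)
    (hr : ∀ j : ℕ, j + 1 < n → (((j : Ω) + 1) * ((n : Ω) - j)) • (e (j + 1) * e j * e (j + 1)) =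
      (((n : Ω) - j - 1) * ((j : Ω) + 2)) • (e (j + 1) * e (j + 2) * e (j + 1)) +
        (2 * ((j : Ω) + 1) - n) • e (j + 1)) : ∀ d j : ℕ, j + 1 + d = n →
    n + 1 ≤ 2 * (j + 1) → ∀ (μ : ℕ) (v : U), e (j + 1) v = v →
      (((j : Ω) + 1) * ((n : Ω) - j)) • e (j + 1) (e j v) = -(μ : Ω) • v → v = 0 := by
  intro d
  induction d with
  | zero =>
    intro j hj _ μ v hv h
    have hn : n = j + 1 := by omega
    subst hn
    have h1 : e (j + 1) (e j v) = v := by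
      rw [← Module.End.mul_apply, htop, hv]
    rw [h1] at h
    have h2 : (((j + 1 + μ : ℕ) : Ω)) • v = 0 := by
      have h3 : (((j + 1 + μ : ℕ) : Ω)) • v =
          (((j : Ω) + 1) * (((j + 1 : ℕ) : Ω) - j)) • v + (μ : Ω) • v := by
        rw [← add_smul]
        congr 1
        push_cast
        ring
      rw [h3, h, neg_smul, neg_add_cancel]
    exact (smul_eq_zero.1 h2).resolve_left (Nat.cast_ne_zero.2 (by omega))
  | succ d ih =>
    intro j hj hn μ v hv h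
    have hj1 : j + 1 < n := by omega
    obtain ⟨t, ht⟩ : ∃ t : ℕ, 2 * (j + 1) = n + 1 + t := ⟨2 * (j + 1) - (n + 1), by omega⟩
    have htΩ : 2 * ((j : Ω) + 1) - n = ((t + 1 : ℕ) : Ω) := by
      have h1 : ((2 * (j + 1) : ℕ) : Ω) = ((n + 1 + t : ℕ) : Ω) := by rw [ht]
      push_cast at h1 ⊢
      linear_combination h1
    have hrel := LinearMap.congr_fun (hr j hj1) v
    simp only [LinearMap.smul_apply, LinearMap.add_apply, Module.End.mul_apply] at hrel
    rw [hv, h, htΩ] at hrel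
    -- `F E v`
    have h1 : (((n : Ω) - j - 1) * ((j : Ω) + 2)) •
        e (j + 1) (e (j + 2) v) = -((μ + (t + 1) : ℕ) : Ω) • v := by
      have h2 : (((n : Ω) - j - 1) * ((j : Ω) + 2)) • e (j + 1) (e (j + 2) v) =
          -(μ : Ω) • v - ((t + 1 : ℕ) : Ω) • v := by rw [hrel]; abel
      rw [h2]
      push_cast
      module
    have h2 : e (j + 2) v = 0 := by
      refine ih (j + 1) (by omega) (by omega) (μ + (t + 1)) (e (j + 2) v) ?_ ?_
      · rw [← Module.End.mul_apply, hid]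
      · have h3 := congrArg (e (j + 2)) h1
        rw [map_smul, map_smul] at h3
        rw [← h3]
        congr 1
        push_cast
        ring
    rw [h2, map_zero, smul_zero] at h1
    have h4 := (smul_eq_zero.1 h1.symm)
    rcases h4 with h4 | h4
    · exact absurd (neg_eq_zero.1 h4) (Nat.cast_ne_zero.2 (by omega))
    · exact h4

end inj

section blocks

open Pool.Agent.Helper13.PR (emb blocks emb_inl emb_inr emb_mul)
open Pool.Agent.Helper13.P2 (sbl)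

lemma blocks_inl {n a b : ℕ} (h : a + b = n) (x : Fin a) :
    (blocks h (.inl x) : ℕ) = x := by
  have h3 : finSumFinEquiv (Sum.inl x : Fin a ⊕ Fin b) = Fin.castAdd b x :=
    finSumFinEquiv_apply_left x
  change ((finCongr h (finSumFinEquiv (Sum.inl x : Fin a ⊕ Fin b)) : Fin n) : ℕ) = x
  rw [h3]
  rfl

lemma blocks_inr {n a b : ℕ} (h : a + b = n) (y : Fin b) :
    (blocks h (.inr y) : ℕ) = a + y := by
  have h3 : finSumFinEquiv (Sum.inr y : Fin a ⊕ Fin b) = Fin.natAdd a y :=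
    finSumFinEquiv_apply_right y
  change ((finCongr h (finSumFinEquiv (Sum.inr y : Fin a ⊕ Fin b)) : Fin n) : ℕ) = a + y
  rw [h3]
  rfl

lemma emb_left_inj {n a b : ℕ} (h : a + b = n) :
    Function.Injective fun α : Perm (Fin a) => emb (blocks h) α (1 : Perm (Fin b)) := by
  intro α α' he
  refine Equiv.ext fun x => ?_
  have h1 := congrArg (fun σ : Perm (Fin n) => σ (blocks h (.inl x))) he
  simp only [emb_inl] at h1
  exact Sum.inl_injective ((blocks h).injective h1)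

lemma emb_right_inj {n a b : ℕ} (h : a + b = n) :
    Function.Injective fun β : Perm (Fin b) => emb (blocks h) (1 : Perm (Fin a)) β := by
  intro β β' he
  refine Equiv.ext fun x => ?_
  have h1 := congrArg (fun σ : Perm (Fin n) => σ (blocks h (.inr x))) he
  simp only [emb_inr] at h1
  exact Sum.inr_injective ((blocks h).injective h1)

open Classical in
lemma low_image {n a b : ℕ} (h : a + b = n) : univ.filter (· ∈ lowP n a) =
    univ.image fun α : Perm (Fin a) => emb (blocks h) α (1 : Perm (Fin b)) := by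
  symm
  apply eq_of_subset_of_card_le
  · intro σ hσ
    obtain ⟨α, -, rfl⟩ := mem_image.1 hσ
    refine mem_filter.2 ⟨mem_univ _, fun i hi => ?_⟩
    obtain ⟨y, rfl⟩ := (blocks h).surjective i
    rcases y with x | y
    · rw [blocks_inl] at hi
      exact absurd x.2 (not_lt.2 hi)
    · rw [emb_inr]
      rfl
  · rw [card_image_of_injective _ (emb_left_inj h), card_univ, Fintype.card_perm,
      Fintype.card_fin, ← card_lowP (k := n) (j := a) (by omega), Nat.card_eq_fintype_card,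
      Fintype.card_subtype]

open Classical in
lemma high_image {n a b : ℕ} (h : a + b = n) : univ.filter (· ∈ highP n a) =
    univ.image fun β : Perm (Fin b) => emb (blocks h) (1 : Perm (Fin a)) β := by
  symm
  apply eq_of_subset_of_card_le
  · intro σ hσ
    obtain ⟨β, -, rfl⟩ := mem_image.1 hσ
    refine mem_filter.2 ⟨mem_univ _, fun i hi => ?_⟩
    obtain ⟨y, rfl⟩ := (blocks h).surjective i
    rcases y with x | y
    · rw [emb_inl]
      rfl
    · rw [blocks_inr] at hi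
      exact absurd hi (by omega)
  · have hb : n - a = b := by omega
    rw [card_image_of_injective _ (emb_right_inj h), card_univ, Fintype.card_perm,
      Fintype.card_fin, ← hb, ← card_highP (k := n) (j := a) (by omega),
      Nat.card_eq_fintype_card, Fintype.card_subtype]

lemma sbl_eq {Ω R : Type*} [Field Ω] [Ring R] [Algebra Ω R] {n : ℕ}
    (ρ : Perm (Fin n) →* R) {a b : ℕ} (h : a + b = n) :
    sbl Ω (fun σ => ρ σ) h = ss Ω (ρ : Perm (Fin n) →ₙ* R) a := by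
  classical
  have hl : (univ.filter (· ∈ lowP n a)).card = Fintype.card (Perm (Fin a)) := by
    rw [low_image h, card_image_of_injective _ (emb_left_inj h), card_univ]
  have hr : (univ.filter (· ∈ highP n a)).card = Fintype.card (Perm (Fin b)) := by
    rw [high_image h, card_image_of_injective _ (emb_right_inj h), card_univ]
  unfold sbl ss Helper13.PR.avg PR.avg
  rw [hl, hr, low_image h, high_image h, sum_image ((emb_left_inj h).injOn),
    sum_image ((emb_right_inj h).injOn), smul_mul_smul_comm, sum_mul_sum, Fintype.card_prod,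
    Nat.cast_mul, mul_inv, Fintype.sum_prod_type]
  congr 1
  refine sum_congr rfl fun α _ => sum_congr rfl fun β _ => ?_
  change ρ _ = ρ _ * ρ _
  rw [← map_mul, emb_mul, mul_one, one_mul]

/-- `M^(a+1,c)` is a direct summand of `M^(a,c+1)` if `c + 1 ≤ a` -/
theorem sym_step {Ω U : Type*} [Field Ω] [CharZero Ω] [AddCommGroup U] [Module Ω U]
    [Module.Finite Ω U] {n : ℕ} (ρ : Equiv.Perm (Fin n) →* Module.End Ω U) {a c : ℕ}
    (h : a + (c + 1) = n) (h' : (a + 1) + c = n) (hac : c + 1 ≤ a)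
    (S : Submodule Ω (Module.End Ω U)) (hS : ∀ σ, ρ σ ∈ S)
    (hSm : ∀ x ∈ S, ∀ y ∈ S, x * y ∈ S) :
    ∃ u ∈ S, ∃ w ∈ S, u * w = sbl Ω (fun σ => ρ σ) h' ∧ sbl Ω (fun σ => ρ σ) h * w = w ∧
      u * sbl Ω (fun σ => ρ σ) h = u ∧ w * sbl Ω (fun σ => ρ σ) h' = w ∧
      sbl Ω (fun σ => ρ σ) h' * u = u := by
  have hmem : ∀ {a b : ℕ} (h : a + b = n), sbl Ω (fun σ => ρ σ) h ∈ S := fun h =>
    S.smul_mem _ (S.sum_mem fun g _ => hS _)
  have he := hmem h
  have hf := hmem h'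
  have hee : sbl Ω (fun σ => ρ σ) h * sbl Ω (fun σ => ρ σ) h = sbl Ω (fun σ => ρ σ) h := by
    rw [sbl_eq, ss_idem]
  have hff : sbl Ω (fun σ => ρ σ) h' * sbl Ω (fun σ => ρ σ) h' = sbl Ω (fun σ => ρ σ) h' := by
    rw [sbl_eq, ss_idem]
  have hinj : ∀ v : U, sbl Ω (fun σ => ρ σ) h' v = v →
      (sbl Ω (fun σ => ρ σ) h' * sbl Ω (fun σ => ρ σ) h * sbl Ω (fun σ => ρ σ) h') v = 0 →
        v = 0 := by
    intro v hv h0
    rw [Module.End.mul_apply, Module.End.mul_apply, hv] at h0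
    rw [sbl_eq] at hv
    rw [sbl_eq, sbl_eq] at h0
    refine inj_aux (fun j => ss Ω (ρ : Perm (Fin n) →ₙ* Module.End Ω U) j) (fun j => ss_idem _ j)
      (fun j => ss_top _ j) (fun j hj => ss_rel _ hj) c a (by omega) (by omega) 0 v hv ?_
    rw [h0, smul_zero, Nat.cast_zero, neg_zero, zero_smul]
  generalize sbl Ω (fun σ => ρ σ) h = e at he hee hinj ⊢
  generalize sbl Ω (fun σ => ρ σ) h' = f at hf hff hinj ⊢
  -- the corner
  let T : Submodule Ω (Module.End Ω U) :=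
    { carrier := {s | s ∈ S ∧ f * s = s ∧ s * f = s}
      add_mem' := fun {s t} hs ht => ⟨S.add_mem hs.1 ht.1, by rw [mul_add, hs.2.1, ht.2.1],
        by rw [add_mul, hs.2.2, ht.2.2]⟩
      zero_mem' := ⟨S.zero_mem, mul_zero _, zero_mul _⟩
      smul_mem' := fun r s hs => ⟨S.smul_mem r hs.1, by rw [mul_smul_comm, hs.2.1],
        by rw [smul_mul_assoc, hs.2.2]⟩ }
  have hx : ∀ s ∈ T, f * e * f * s ∈ T := fun s hs =>
    ⟨hSm _ (hSm _ (hSm _ hf _ he) _ hf) _ hs.1, by simp only [← mul_assoc, hff],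
      by rw [mul_assoc, hs.2.2]⟩
  let φ : T →ₗ[Ω] T := (LinearMap.mulLeft Ω (f * e * f)).restrict hx
  have hφ : Function.Injective φ := by
    rw [← LinearMap.ker_eq_bot, LinearMap.ker_eq_bot']
    intro s hs
    have h1 : f * e * f * (s : Module.End Ω U) = 0 := congrArg Subtype.val hs
    refine Subtype.ext (LinearMap.ext fun v => ?_)
    refine hinj _ ?_ ?_
    · rw [← Module.End.mul_apply, s.2.2.1]
    · rw [← Module.End.mul_apply, h1]
      rfl
  obtain ⟨⟨g, hg⟩, hgf⟩ := LinearMap.injective_iff_surjective.1 hφ ⟨f, hf, hff, hff⟩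
  have h1 : f * e * f * g = f := congrArg Subtype.val hgf
  refine ⟨f * e, hSm _ hf _ he, e * f * g, hSm _ (hSm _ he _ hf) _ hg.1, ?_, ?_, ?_, ?_, ?_⟩
  · calc f * e * (e * f * g) = f * (e * e) * f * g := by simp only [mul_assoc]
      _ = f := by rw [hee, h1]
  · rw [← mul_assoc, ← mul_assoc, hee]
  · rw [mul_assoc, hee]
  · rw [mul_assoc, hg.2.2]
  · rw [← mul_assoc, hff]

end blocks

end Pool.Agent.Helper47.P2
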